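import Mathlib

/-!
A transitive solvable permutation group of degree `3 * 2 ^ k` with a quotient `(ZMod 2) ^ k` onto
which every setwise stabilizer surjects.
-/

set_option autoImplicit false

namespace Pool.Agent.Lib.MP_5c8dfa_al

open Equiv

/-- The additive sign of a permutation of three points. -/
def sg (g : Perm (Fin 3)) : ZMod 2 := if Perm.sign g = 1 then 0 else 1

theorem sg_mul (g h : Perm (Fin 3)) : sg (g * h) = sg g + sg h := by
  revert g h; decide

theorem sg_one : sg 1 = 0 := by decide

theorem sg_inv (g : Perm (Fin 3)) : sg g⁻¹ = sg g := by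
  revert g; decide

theorem exists_odd_fix (S : Finset (Fin 3)) :
    ∃ r : Perm (Fin 3), sg r = 1 ∧ ∀ i, r i ∈ S ↔ i ∈ S := by
  revert S; decide

theorem exists_even_move (i j : Fin 3) : ∃ r : Perm (Fin 3), sg r = 0 ∧ r i = j := by
  revert i j; decide

theorem comm_even (g h : Perm (Fin 3)) (hg : sg g = 0) (hh : sg h = 0) : g * h = h * g := by
  revert g h; decide

/-- The elementary abelian group of rank `k`. -/
abbrev V (k : ℕ) := Fin k → ZMod 2

/-- The top group. -/
abbrev Q (k : ℕ) := Multiplicative (V k)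

/-- The full wreath product. -/
abbrev W (k : ℕ) := RegularWreathProduct (Perm (Fin 3)) (Q k)

/-- The total sign. -/
def tot {k : ℕ} (w : W k) : ZMod 2 := ∑ x : Q k, sg (w.left x)

theorem tot_mul {k : ℕ} (a b : W k) : tot (a * b) = tot a + tot b := by
  unfold tot
  simp only [RegularWreathProduct.mul_left, Pi.mul_apply, sg_mul, Finset.sum_add_distrib]
  congr 1
  exact Fintype.sum_equiv (Equiv.mulLeft a.right⁻¹) _ _ (fun x => rfl)

theorem tot_one {k : ℕ} : tot (1 : W k) = 0 := by
  simp [tot, sg_one]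

/-- The subgroup of elements with an even number of odd coordinates. -/
def Gam (k : ℕ) : Subgroup (W k) where
  carrier := {w | tot w = 0}
  mul_mem' := by
    intro a b ha hb
    simp only [Set.mem_ofPred_eq] at *
    rw [tot_mul, ha, hb, add_zero]
  one_mem' := tot_one
  inv_mem' := by
    intro a ha
    simp only [Set.mem_ofPred_eq] at *
    have h := tot_mul a a⁻¹
    rw [mul_inv_cancel, tot_one, ha, zero_add] at h
    exact h.symm

/-- The weighted sum of the positions of the odd coordinates. -/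
def psi {k : ℕ} (w : W k) : V k := ∑ x : Q k, sg (w.left x) • Multiplicative.toAdd x

theorem psi_mul {k : ℕ} (a b : W k) (hb : tot b = 0) : psi (a * b) = psi a + psi b := by
  unfold psi
  simp only [RegularWreathProduct.mul_left, Pi.mul_apply, sg_mul, add_smul,
    Finset.sum_add_distrib]
  congr 1
  have h1 : ∑ x : Q k, sg (b.left (a.right⁻¹ * x)) • Multiplicative.toAdd x
      = ∑ y : Q k, sg (b.left y) • Multiplicative.toAdd (a.right * y) :=
    Fintype.sum_equiv (Equiv.mulLeft a.right⁻¹) _ _ (fun x => by simp)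
  rw [h1]
  simp only [toAdd_mul, smul_add, Finset.sum_add_distrib]
  rw [← Finset.sum_smul]
  unfold tot at hb
  rw [hb, zero_smul, zero_add]

/-- The epimorphism on the abstract group. -/
def phi0 (k : ℕ) : Gam k →* Q k where
  toFun w := Multiplicative.ofAdd (psi w.1)
  map_one' := by simp [psi, sg_one]
  map_mul' a b := by
    rw [← ofAdd_add, ← psi_mul _ _ b.2]; rfl

/-- The permutation representation on `Fin 3 × Q k`. -/
def rho (k : ℕ) : Gam k →* Perm (Fin 3 × Q k) :=
  (RegularWreathProduct.toPerm (Perm (Fin 3)) (Q k) (Fin 3)).comp (Gam k).subtype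

theorem rho_inj (k : ℕ) : Function.Injective (rho k) :=
  (RegularWreathProduct.toPermInj (Perm (Fin 3)) (Q k) (Fin 3)).comp Subtype.val_injective

theorem rho_apply {k : ℕ} (w : Gam k) (p : Fin 3 × Q k) :
    rho k w p = (w.1.left (w.1.right * p.2) p.1, w.1.right * p.2) := rfl

/-- Signs as a homomorphism. -/
def sgHom : Perm (Fin 3) →* Multiplicative (ZMod 2) where
  toFun g := Multiplicative.ofAdd (sg g)
  map_one' := by simp [sg_one]
  map_mul' a b := by rw [sg_mul, ofAdd_add]

theorem solvable_base (k : ℕ) : Group.IsSolvable (Q k → Perm (Fin 3)) := by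
  let f : (Q k → Perm (Fin 3)) →* (Q k → Multiplicative (ZMod 2)) :=
    MonoidHom.compLeft sgHom (Q k)
  have hker : Group.IsSolvable f.ker := by
    apply Group.isSolvable_of_comm
    intro a b
    ext x : 2
    have ha : f a.1 x = 1 := by rw [a.2]; rfl
    have hb : f b.1 x = 1 := by rw [b.2]; rfl
    exact comm_even _ _ ha hb
  exact Group.isSolvable_of_ker_le_range f.ker.subtype f (by simp)

/-- The base group inside the wreath product. -/
def inB (k : ℕ) : (Q k → Perm (Fin 3)) →* W k where
  toFun g := ⟨g, 1⟩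
  map_one' := rfl
  map_mul' a b := by ext <;> simp

theorem solvable_W (k : ℕ) : Group.IsSolvable (W k) := by
  have := solvable_base k
  refine Group.isSolvable_of_ker_le_range (inB k) RegularWreathProduct.rightHom ?_
  intro w hw
  refine ⟨w.left, ?_⟩
  have : w.right = 1 := hw
  ext <;> simp [inB, this]

theorem trans_rho (k : ℕ) (p q : Fin 3 × Q k) : ∃ w : Gam k, rho k w p = q := by
  obtain ⟨r, hr0, hr⟩ := exists_even_move p.1 q.1
  refine ⟨⟨⟨fun _ => r, q.2 * p.2⁻¹⟩, ?_⟩, ?_⟩
  · show tot _ = 0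
    simp [tot, hr0]
  · rw [rho_apply]
    ext <;> simp [hr]

theorem stab_surj (k : ℕ) (Δ : Set (Fin 3 × Q k)) (y : Q k) :
    ∃ w : Gam k, (∀ p, rho k w p ∈ Δ ↔ p ∈ Δ) ∧ phi0 k w = y := by
  classical
  by_cases hy : y = 1
  · exact ⟨1, by simp, by simp [hy]⟩
  have hr : ∀ x : Q k, ∃ r : Perm (Fin 3), sg r = 1 ∧ ∀ i, (r i, x) ∈ Δ ↔ (i, x) ∈ Δ := by
    intro x
    obtain ⟨r, h1, h2⟩ := exists_odd_fix (Finset.univ.filter fun i => (i, x) ∈ Δ)
    exact ⟨r, h1, fun i => by simpa using h2 i⟩
  choose r hr1 hr2 using hr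
  let g : Q k → Perm (Fin 3) := fun x => if x = 1 ∨ x = y then r x else 1
  have hsg : ∀ x, sg (g x) = (if x = 1 then 1 else 0) + (if x = y then 1 else 0) := by
    intro x
    by_cases h1 : x = 1
    · have h2 : x ≠ y := by rw [h1]; exact Ne.symm hy
      simp [g, h1, hr1, Ne.symm hy]
    · by_cases h2 : x = y
      · simp [g, h2, hr1, hy]
      · simp [g, h1, h2, sg_one]
  refine ⟨⟨⟨g, 1⟩, ?_⟩, ?_, ?_⟩
  · show tot _ = 0
    simp only [tot, hsg, Finset.sum_add_distrib, Finset.sum_ite_eq', Finset.mem_univ, if_true]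
    decide
  · rintro ⟨i, x⟩
    rw [rho_apply]
    simp only [one_mul, g]
    split_ifs
    · exact hr2 x i
    · simp
  · show Multiplicative.ofAdd (psi _) = y
    simp [psi, hsg, add_smul, Finset.sum_add_distrib]

end Pool.Agent.Lib.MP_5c8dfa_al
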